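import Pool.Agent.X156.SD.CSign2
import Pool.Agent.X156.SD.Conj

/-!
# The sign conjecture for base changes

Let `π` be a regular algebraic cuspidal representation of `GL_n` over `K` (imaginary quadratic in
the problem) with `π^∨ ≅ π^c |·|^{-1}`, with Satake parameters `α_{v,i}`, `v ∉ S`, so
`|α_{v,i}| = q_v^{-1/2}` and the parameters at `c(v)` are the complex conjugates of those at `v`.
Let `F/K` be a finite Galois extension with group `G`, Galois over `ℚ`; `t` is the complex
conjugation of `F`, `κ = c` its restriction to `K`, `θ(g) = t g t⁻¹`.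

Hypothesis: for every complex representation `τ` of `G` the function `L_S(π ⊗ τ, s)` continues
meromorphically to `Re s > ρ`, where `ρ < 0` (known for nilpotent `G`). `o(H)` is the order at
`s = 0` of `L_S(π ⊗ π_H, s)`, `π_H` the permutation character of `G/H`; this is the order of
`L(s, π)` over `F^H`. `R` is a complex representation of `G`, meant is `R = H¹_f(F, ρ_π)`, with
`R^H = H¹_f(F^H, ρ_π)` and `(R ⊗ τ)^G = H¹_f(K, ρ_π ⊗ τ)`; the scalars are the complex numbers by
means of `ι`.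

Theorem. Let `H` be stable under `θ`, `o(H)` odd (the sign over `F^H` is `-1`) and `R^H = 0`: a
failure of the sign statement over `F^H`. Then there is an irreducible representation `τ` of `G`,
`τ^∨ ≅ τ^c` (so that `π ⊗ τ` is again conjugate self-dual), for which the order of `L_S(π ⊗ τ, s)`
at `0` is odd and `H¹_f(K, ρ_π ⊗ τ) = 0`: Q1 fails for `π ⊗ τ`. Moreover `dim τ^H` is odd; for
`H = 1` the dimension `m` of `τ` is odd (so `n m` is divisible by `4` only if `n` is), and `m = 1`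
if `G` is a `2`-group (so Q1 fails for a twist of `π` by a character, on the same `GL_n`).

The proof: the order is the same for `τ` and `(τ^∨)^c`, by the action of `t` on the places and on
the Frobenius elements, so the `τ` with `τ ≇ (τ^∨)^c` contribute an even number to `o(H)`.
-/

set_option autoImplicit false

open IsDedekindDomain NumberField Module

namespace Pool.Agent.Results.MP_b4b3cb_nt.SignForBaseChanges

open Pool.Agent.X298.ST Pool.Agent.X298.EC Pool.Agent.X156.SD Pool.Agent.X156.LD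

theorem result {K F : Type} [Field K] [NumberField K] [Field F] [NumberField F] [Algebra K F]
    [IsGalois K F] (t : F ≃+* F) (κ : K ≃+* K) (htκ : Induces t κ) (ht : ∀ x, t (t x) = x)
    (S : Set (HeightOneSpectrum (𝓞 K))) (hS : ∀ v, v ∈ S ↔ conjPlace κ v ∈ S)
    (P : Places S → Ideal (𝓞 F)) (hP : IsAbove P)
    {n : ℕ} (α : Places S → Fin n → ℂ) (hα : IsSatake α (-1))
    (hc : ∀ v k, satakePow α (conjPlaces κ hS v) k = (starRingEnd ℂ) (satakePow α v k))
    (ρ : ℝ) (hρ : ρ < 0)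
    (hΛ : ∀ (m : ℕ) (τ : (F ≃ₐ[K] F) →* Matrix (Fin m) (Fin m) ℂ),
      ∃ Λ, Continues P (satakePow α) (-1) ρ (fun g => (τ g).trace) Λ)
    {R : Type} [AddCommGroup R] [Module ℂ R] [FiniteDimensional ℂ R]
    (r : (F ≃ₐ[K] F) →* (R →ₗ[ℂ] R)) :
    ∃ o : Subgroup (F ≃ₐ[K] F) → ℤ,
      (∀ H : Subgroup (F ≃ₐ[K] F), (∃ Λ, Continues P (satakePow α) (-1) ρ (perm H) Λ) ∧
        ∀ Λ, Continues P (satakePow α) (-1) ρ (perm H) Λ →
          meromorphicOrderAt Λ 0 = (o H : WithTop ℤ)) ∧
      ∀ H : Subgroup (F ≃ₐ[K] F), (∀ h ∈ H, conjGal htκ h ∈ H) → Odd (o H) → sel r H = 0 →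
        ∃ (m : ℕ) (τ : (F ≃ₐ[K] F) →* Matrix (Fin m) (Fin m) ℂ) (Λ : ℂ → ℂ) (k : ℤ),
          IsIrr τ ∧ (∀ g, (τ (conjGal htκ g)⁻¹).trace = (τ g).trace) ∧
          Continues P (satakePow α) (-1) ρ (fun g => (τ g).trace) Λ ∧
          meromorphicOrderAt Λ 0 = (k : WithTop ℤ) ∧ Odd k ∧ ¬ HasInvariant r τ ∧
          Odd (finrank ℂ (fixS (matRep τ) H)) ∧
          (H = ⊥ → Odd m) ∧ (H = ⊥ → IsPGroup 2 (F ≃ₐ[K] F) → m = 1) := by
  have hfd : FiniteDimensional K F := Module.Finite.of_restrictScalars_finite ℚ K F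
  have hfin := fin_gal (K := K) (L := F)
  have hσ := isConjugation hP htκ ht hS
  obtain ⟨D, m, hm, h1, h2⟩ := exists_odd (x := 0) hρ hα.pure hσ hc hΛ
  rw [Complex.ofReal_zero] at h1 hm
  refine ⟨_, h1, fun H hH hodd hsel => ?_⟩
  obtain ⟨i, hi1, hi2, hi3⟩ := h2 H hH hodd
  obtain ⟨Λ, hL1, hL2⟩ := hm i
  have hbot : H = ⊥ → Odd (D.d i) := by
    rintro rfl
    have h3 : fixS (D.rep i) ⊥ = ⊤ := by
      rw [eq_top_iff]
      intro v _ g hg
      rw [Subgroup.mem_bot] at hg
      rw [hg, map_one]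
      rfl
    rw [h3, finrank_top, Module.finrank_fin_fun] at hi3
    exact hi3
  refine ⟨D.d i, D.mat i, Λ, m i, D.isIrr i, hi1, hL1, hL2, hi2, ?_, hi3, hbot,
    fun hH0 hG => D.dim_one hG i (hbot hH0)⟩
  refine no_invariant D r i H ?_ hsel
  intro h4
  rw [h4] at hi3
  exact (Nat.not_odd_iff_even.2 Even.zero) hi3

end Pool.Agent.Results.MP_b4b3cb_nt.SignForBaseChanges
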