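import Mathlib
import Pool.Agent.X298.PA.GLMain

/-!
# The sign conjecture for conjugate self-dual representations: the sign from the Satake parameters

Let `F` be an imaginary quadratic field and `π` a regular algebraic cuspidal automorphic representation of `GL_n(𝔸_F)` with
`π^∨ ≃ π^c |·|^{-1}`; its completed `L`-function `Λ` is entire and `Λ(-s) = ε(π) Λ(s)` (normalised with a factor `N^{s/2}`).
Let `S` be a finite set of places which contains the ramified ones and is stable under `c`, and `a_{v,i}` the Satake parameters at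
`v ∉ S`. For real `γ > π / 2` and `T > 0` consider the absolutely convergent real series

  `s_γ(T) = - ∑_{v ∉ S} ∑_{k ≥ 1} Re(∑_i a_{v,i}^k) sin(γ k log q_v / T) / (k Γ(1 + k log q_v / T))`.

It is shown:

* the limit `ℓ(γ) = lim_{T → ∞} s_γ(T)` exists for `γ > π / 2`, and `ℓ(γ) → (π / 2) Z` for `γ → ∞`, where `Z` is **the number of
  the real zeros of `Λ`** with multiplicities, and `ε(π) = (-1)^Z`; the error is `≤ 10 (e^e + 1) ord_{s=0} Λ / γ` for
  `γ ≥ 2π`;
* `ε(π) = -1` if and only if `lim_γ lim_T s_γ(T)` is an odd multiple of `π / 2`;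
* **the sign conjecture for `(π, p, ι)`**, `ε(π) = -1 ⇒ H^1_f(F, ρ_{π,ι}) ≠ 0`, holds if and only if `H^1_f ≠ 0` or
  `lim_γ lim_T s_γ(T) ∈ π ℤ`: a statement on the Satake parameters outside of `S`, without functional equation, epsilon factors
  or ramified places.

There is no hypothesis on zeros. All the hypotheses are known for such `π` (temperedness `|a_{v,i}| = q_v^{-1/2}` included).

Proof: rotated law with the phase of the constant (`Pool.Agent.X298.PA`): the imaginary part of the rotated sum converges to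
`- m Im Λ_γ + π e`, `m` the order at `0`, `e` the number of the positive zeros, and `Im Λ_γ → - π / 2`.
-/

set_option autoImplicit false

open Complex Filter Topology Set
open IsDedekindDomain NumberField

namespace Pool.Agent.Results.MP_b4b3cb_nt.SignFromRealZeros

open Pool.Agent.X298.PA Pool.Agent.X298.PA.GL

/-- **The sign of a conjugate self-dual representation from its Satake parameters.** -/
theorem result {F : Type} [Field F] [NumberField F] [IsTotallyComplex F] (_hF : Module.finrank ℚ F = 2)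
    (S : Finset (HeightOneSpectrum (𝓞 F))) (n : ℕ) (π : Rep S n) (ε : ℤ) (Λ : ℂ → ℂ) (h : Completed π ε Λ) :
    (∀ γ T : ℝ, 0 < T → Summable fun x => |sTerm π γ T x|) ∧
    {x : ℝ | Λ x = 0}.Finite ∧ (-1 : ℤ) ^ realZeros Λ = ε ∧
    ∃ ℓ : ℝ → ℝ, (∀ γ : ℝ, Real.pi / 2 < γ → Tendsto (fun T : ℝ => sSum π γ T) atTop (𝓝 (ℓ γ))) ∧
      (∀ γ : ℝ, 2 * Real.pi ≤ γ → |ℓ γ - Real.pi / 2 * realZeros Λ| ≤
        10 * (Real.exp (Real.exp 1) + 1) * analyticOrderNatAt Λ 0 / γ) ∧
      Tendsto ℓ atTop (𝓝 (Real.pi / 2 * realZeros Λ)) ∧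
      (ε = -1 ↔ ∃ m : ℤ, Tendsto ℓ atTop (𝓝 (Real.pi * (m + 1 / 2)))) ∧
      ∀ d : ℕ, (ε = -1 → d ≠ 0) ↔ (d = 0 → ∃ m : ℤ, Tendsto ℓ atTop (𝓝 (Real.pi * m))) := by
  obtain ⟨h1, h2, ℓ, h3, h4, h5⟩ := main h
  have hπ := Real.pi_pos
  have hodd : ε = -1 ↔ ∃ m : ℤ, Tendsto ℓ atTop (𝓝 (Real.pi * (m + 1 / 2))) := by
    rw [← h2]
    constructor
    · intro h6
      have h7 : Odd (realZeros Λ) := by
        by_contra hn
        rw [Nat.not_odd_iff_even] at hn
        rw [hn.neg_one_pow] at h6
        norm_num at h6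
      obtain ⟨m, hm⟩ := h7
      refine ⟨m, ?_⟩
      have e1 : Real.pi * ((m : ℤ) + 1 / 2) = Real.pi / 2 * realZeros Λ := by
        rw [hm]
        push_cast
        ring
      rw [e1]
      exact h5
    · rintro ⟨m, hm⟩
      have h6 := tendsto_nhds_unique h5 hm
      have h7 : (realZeros Λ : ℝ) = 2 * m + 1 := by
        have h8 : Real.pi / 2 ≠ 0 := by positivity
        refine mul_left_cancel₀ h8 ?_
        rw [h6]
        ring
      have h8 : (realZeros Λ : ℤ) = 2 * m + 1 := by exact_mod_cast h7
      have h9 : Odd (realZeros Λ) := by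
        have : Odd (realZeros Λ : ℤ) := ⟨m, h8⟩
        exact_mod_cast this
      exact h9.neg_one_pow
  have heven : ε ≠ -1 ↔ ∃ m : ℤ, Tendsto ℓ atTop (𝓝 (Real.pi * m)) := by
    rw [← h2]
    constructor
    · intro h6
      have h7 : Even (realZeros Λ) := by
        by_contra hn
        rw [Nat.not_even_iff_odd] at hn
        exact h6 hn.neg_one_pow
      obtain ⟨m, hm⟩ := h7
      refine ⟨m, ?_⟩
      have e1 : Real.pi * (m : ℤ) = Real.pi / 2 * realZeros Λ := by
        rw [hm]
        push_cast
        ring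
      rw [e1]
      exact h5
    · rintro ⟨m, hm⟩
      have h6 := tendsto_nhds_unique h5 hm
      have h7 : (realZeros Λ : ℝ) = 2 * m := by
        have h8 : Real.pi / 2 ≠ 0 := by positivity
        refine mul_left_cancel₀ h8 ?_
        rw [h6]
        ring
      have h8 : (realZeros Λ : ℤ) = m + m := by
        have : (realZeros Λ : ℤ) = 2 * m := by exact_mod_cast h7
        rw [this]
        ring
      have h9 : Even (realZeros Λ) := by
        have : Even (realZeros Λ : ℤ) := ⟨m, h8⟩
        exact_mod_cast this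
      rw [h9.neg_one_pow]
      norm_num
  refine ⟨fun γ T hT => sTerm_summable π γ hT, h1, h2, ℓ, h3, h4, h5, hodd, fun d => ?_⟩
  rw [← heven]
  tauto

end Pool.Agent.Results.MP_b4b3cb_nt.SignFromRealZeros
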